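import Pool.Agent.Q297.CC.Main

/-!
If the point closures of `X` satisfy a countability condition and the Scott space of closed sets is
core-compact, then `X` is core-compact.
-/

namespace Pool.Agent.Results.MP_1b9d6e_gt.CountableClosures

open Pool.Agent.Q297.CC TopologicalSpace

universe v

/-- Spaces with countable point closures satisfy the countability condition; and for every space
`X` satisfying it: if the Scott space of the lattice of closed sets of `X` is core-compact, then
`X` is core-compact, and even every point has a neighbourhood base of sets `↑P` with `P` finite. -/
theorem result : (∀ (X : Type v) [TopologicalSpace X],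
      (∀ x : X, (closure ({x} : Set X)).Countable) → CountCoin X) ∧
    ∀ (X : Type v) [TopologicalSpace X], CountCoin X →
      CoreComp (scottOpens (Closeds X)) → CoreComp (opens X) ∧ LocHyp X :=
  ⟨fun _ _ hX => countCoin_of_countable hX, fun _ _ hX h => ⟨(main hX h).core, main hX h⟩⟩

end Pool.Agent.Results.MP_1b9d6e_gt.CountableClosures
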